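import Pool.Agent.Y142.Split
import Pool.Agent.U707.LI.StmP

/-!
# Project LI2 (helper707), package CHD: a locally constant class function which vanishes at the Frobenius elements
of all places outside a set of density zero is zero
-/

set_option autoImplicit false

open NumberField Filter Topology IsDedekindDomain Module Pool.Agent.W401.Cheb

namespace Pool.Agent.U851.LIP

theorem chd_of (cheb : ChebK)
    (fin : ∀ (K : Type) [Field K] [NumberField K] (N : ℕ),
      {v : HeightOneSpectrum (𝓞 K) | Ideal.absNorm v.asIdeal ≤ N}.Finite) :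
    Pool.Agent.U707.LI.S_CHD := by
  intro K k _ _ _ f hconj ⟨U, hU, hfU⟩ B hB hf
  -- an open normal subgroup
  have hUf : U.FiniteIndex := by
    have : Finite (GK K ⧸ U) := Subgroup.quotient_finite_of_isOpen U hU
    exact Subgroup.finiteIndex_of_finite_quotient
  set W : Subgroup (GK K) := U.normalCore with hW
  have hWU : W ≤ U := Subgroup.normalCore_le U
  have hWo : IsOpen (W : Set (GK K)) := by
    have h1 : IsClosed (W : Set (GK K)) := by
      have hUc : IsClosed (U : Set (GK K)) := U.isClosed_of_isOpen hU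
      have h2 : (W : Set (GK K)) = ⋂ g : GK K, (fun x => g * x * g⁻¹) ⁻¹' (U : Set (GK K)) := by
        ext x
        simp only [Set.mem_iInter, Set.mem_preimage, SetLike.mem_coe]
        exact Iff.rfl
      rw [h2]
      refine isClosed_iInter fun g => hUc.preimage ?_
      exact (continuous_const.mul continuous_id).mul continuous_const
    have h3 : W.FiniteIndex := Subgroup.finiteIndex_normalCore U
    exact W.isOpen_of_isClosed_of_finiteIndex h1
  have hWn : W.Normal := Subgroup.normalCore_normal U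
  set C : Set (GK K) := {s | f s ≠ 0} with hC
  have h1 : ∀ σ ∈ C, ∀ τ : GK K, τ * σ * τ⁻¹ ∈ C := by
    intro σ hσ τ
    show f _ ≠ 0
    rw [hconj]
    exact hσ
  have h2 : ∀ σ ∈ C, ∀ u ∈ W, σ * u ∈ C := by
    intro σ hσ u hu
    show f _ ≠ 0
    rw [hfU _ _ (hWU hu)]
    exact hσ
  have h4 := cheb K W hWo C h1 h2
  have hfin : Finite (GK K ⧸ W) := Subgroup.quotient_finite_of_isOpen W hWo
  have hpos : (0 : ℝ) < Nat.card (GK K ⧸ W) := by exact_mod_cast Nat.card_pos
  by_contra hcon
  push Not at hcon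
  obtain ⟨g, hg⟩ := hcon
  have hn : 0 < ((QuotientGroup.mk : GK K → GK K ⧸ W) '' C).ncard := by
    rw [Set.ncard_pos (Set.toFinite _)]
    exact ⟨_, g, hg, rfl⟩
  set L : ℝ := (((QuotientGroup.mk : GK K → GK K ⧸ W) '' C).ncard : ℝ) / (Nat.card (GK K ⧸ W) : ℝ)
    with hL
  have hL0 : 0 < L := by
    apply div_pos _ hpos
    exact_mod_cast hn
  have h5 := h4.eventually_const_lt (half_lt_self hL0)
  have h6 := hB (L / 2) (by positivity)
  have h7 : ∀ᶠ N : ℕ in atTop, 0 < Nat.primeCounting N :=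
    Filter.eventually_atTop.2 ⟨2, fun n hn => by
      have : Nat.primeCounting 2 ≤ Nat.primeCounting n := Nat.monotone_primeCounting hn
      have h8 : Nat.primeCounting 2 = 1 := by decide
      omega⟩
  obtain ⟨N, ⟨h8, h9⟩, h10⟩ := ((h5.and h6).and h7).exists
  have h11 : (Nat.card {v : HeightOneSpectrum (𝓞 K) // Ideal.absNorm v.asIdeal ≤ N ∧
      ∃ σ ∈ C, IsFrob v σ} : ℝ) ≤
      (Nat.card {v : HeightOneSpectrum (𝓞 K) // Ideal.absNorm v.asIdeal ≤ N ∧ v ∈ B} : ℝ) := by
    have hfin2 : Finite {v : HeightOneSpectrum (𝓞 K) // Ideal.absNorm v.asIdeal ≤ N ∧ v ∈ B} :=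
      ((fin K N).subset (fun v (hv : Ideal.absNorm v.asIdeal ≤ N ∧ v ∈ B) => hv.1)).to_subtype
    exact_mod_cast Nat.card_le_card_of_injective
      (fun v : {v : HeightOneSpectrum (𝓞 K) // Ideal.absNorm v.asIdeal ≤ N ∧
        ∃ σ ∈ C, IsFrob v σ} =>
        (⟨v.1, v.2.1, by
          obtain ⟨σ, hσ, hv⟩ := v.2.2
          by_contra hB
          exact hσ (hf v.1 hB σ hv)⟩ : {v : HeightOneSpectrum (𝓞 K) //
          Ideal.absNorm v.asIdeal ≤ N ∧ v ∈ B}))
      (fun v w hvw => by
        apply Subtype.ext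
        have h1 := congrArg Subtype.val hvw
        exact h1)
  have h12 : (0 : ℝ) < Nat.primeCounting N := by exact_mod_cast h10
  unfold dens at h8
  rw [lt_div_iff₀ h12] at h8
  linarith

theorem t_CHD : Pool.Agent.U707.LI.S_CHD :=
  chd_of Pool.Agent.Y142.chebK fun K _ _ N => Pool.Agent.W352.ChAbs.finite_le (K := K) N

end Pool.Agent.U851.LIP
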